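import Mathlib
import Pool.Agent.H933.LL.Stm5

/-!
# Area integral of `log⁺ (1 / |f|)` (project LL of helper933, task P_neg)
-/

set_option autoImplicit false

open MeasureTheory Metric
open scoped Real ENNReal

namespace Pool.Agent.H722.LL

open Pool.Agent.H933.LL

/-- the circle averages of `log⁺ (1 / |f|)` are at most `log M` -/
theorem circ {f : ℂ → ℂ} {s M : ℝ} (hs : 0 < s) (hf : AnalyticOnNhd ℂ f (closedBall 0 s))
    (h0 : f 0 = 1) (hM : 1 ≤ M) (hfM : ∀ z ∈ closedBall (0 : ℂ) s, ‖f z‖ ≤ M) :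
    CircleIntegrable (fun z => Real.posLog ‖f z‖⁻¹) 0 s ∧
      Real.circleAverage (fun z => Real.posLog ‖f z‖⁻¹) 0 s ≤ Real.log M := by
  have habs : |s| = s := abs_of_pos hs
  have hcont : ContinuousOn f (closedBall 0 s) := hf.continuousOn
  have hci : CircleIntegrable (fun z => Real.posLog ‖f z‖) 0 s := by
    apply ContinuousOn.circleIntegrable hs.le
    exact Real.continuous_posLog.comp_continuousOn ((hcont.mono sphere_subset_closedBall).norm)
  have hg' : AnalyticOnNhd ℂ f (closedBall 0 |s|) := by rw [habs]; exact hf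
  have hcl : CircleIntegrable (fun z => Real.log ‖f z‖) 0 s :=
    MeromorphicOn.circleIntegrable_log_norm ((hg'.mono sphere_subset_closedBall).meromorphicOn)
  have heq : (fun z => Real.posLog ‖f z‖⁻¹) =
      fun z => Real.posLog ‖f z‖ - Real.log ‖f z‖ := by
    funext z
    have e := Real.posLog_sub_posLog_inv (x := ‖f z‖)
    linarith
  rw [heq]
  refine ⟨hci.sub hcl, ?_⟩
  have e1 : Real.circleAverage (fun z => Real.posLog ‖f z‖ - Real.log ‖f z‖) 0 s =
      Real.circleAverage (fun z => Real.posLog ‖f z‖) 0 s -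
        Real.circleAverage (fun z => Real.log ‖f z‖) 0 s := by
    exact Real.circleAverage_sub hci hcl
  rw [e1]
  have h1 : Real.circleAverage (fun z => Real.posLog ‖f z‖) 0 s ≤ Real.log M := by
    have h2 : Real.circleAverage (fun z => Real.posLog ‖f z‖) 0 s ≤
        Real.circleAverage (fun _ => Real.log M) (0 : ℂ) s := by
      apply Real.circleAverage_mono hci (circleIntegrable_const _ _ _)
      intro z hz
      rw [habs] at hz
      have h3 := hfM z (sphere_subset_closedBall hz)
      have h4 : Real.posLog ‖f z‖ ≤ Real.posLog M := Real.posLog_le_posLog (norm_nonneg _) h3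
      have h5 : Real.posLog M = Real.log M :=
        Real.posLog_eq_log (by rw [abs_of_nonneg (by linarith)]; exact hM)
      rw [h5] at h4
      exact h4
    rwa [Real.circleAverage_const] at h2
  have h2 : 0 ≤ Real.circleAverage (fun z => Real.log ‖f z‖) 0 s := by
    have hgc : f 0 ≠ 0 := by rw [h0]; exact one_ne_zero
    have hJ := AnalyticOnNhd.circleAverage_log_norm hs.ne' hg' hgc
    have hnn : 0 ≤ ∑ᶠ u, (MeromorphicOn.divisor f (closedBall 0 |s|) u : ℝ) *
        Real.log (s * ‖0 - u‖⁻¹) := by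
      apply finsum_nonneg
      intro u
      by_cases hu : u ∈ closedBall (0 : ℂ) |s|
      · refine mul_nonneg (mod_cast MeromorphicOn.AnalyticOnNhd.divisor_nonneg hg' ..) ?_
        by_cases huc : 0 = u
        · rw [← huc, sub_self, norm_zero, inv_zero, mul_zero, Real.log_zero]
        · apply Real.log_nonneg
          have h1 : 0 < ‖0 - u‖ := norm_pos_iff.2 (sub_ne_zero.2 huc)
          rw [← div_eq_mul_inv, one_le_div h1]
          rw [habs, mem_closedBall, dist_comm, dist_eq_norm] at hu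
          exact hu
      · rw [Function.locallyFinsuppWithin.apply_eq_zero_of_notMem _ hu]
        simp
    rw [hJ, h0, norm_one, Real.log_one, add_zero]
    exact hnn
  linarith

/-- polar coordinates -/
theorem polar {φ : ℂ → ℝ} {r A : ℝ} (hr : 0 < r) (hA : 0 ≤ A) (hφ : Measurable φ)
    (h0 : ∀ z, 0 ≤ φ z)
    (hc : ∀ s ∈ Set.Ioo 0 r, CircleIntegrable φ 0 s ∧ Real.circleAverage φ 0 s ≤ A) :
    ∫⁻ z in ball (0 : ℂ) r, ENNReal.ofReal (φ z) ≤ ENNReal.ofReal (π * r ^ 2 * A) := by
  have hpi : 0 < π := Real.pi_pos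
  rw [← lintegral_indicator measurableSet_ball, ← Complex.lintegral_comp_polarCoord_symm,
    polarCoord_target]
  have h2 : ∀ p ∈ Set.Ioi (0 : ℝ) ×ˢ Set.Ioo (-π) π,
      ENNReal.ofReal p.1 • (ball (0 : ℂ) r).indicator (fun z => ENNReal.ofReal (φ z))
        (Complex.polarCoord.symm p) =
        (Set.Ioo 0 r ×ˢ Set.Ioo (-π) π).indicator
          (fun p => ENNReal.ofReal p.1 * ENNReal.ofReal (φ (circleMap 0 p.1 p.2))) p := by
    rintro ⟨s, θ⟩ ⟨hs, hθ⟩
    simp only at hs hθ
    have hs0 : (0 : ℝ) < s := hs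
    have e1 : Complex.polarCoord.symm (s, θ) = circleMap 0 s θ := by
      rw [Complex.polarCoord_symm_apply, circleMap, Complex.exp_mul_I, zero_add]
      push_cast
      rfl
    rw [e1]
    by_cases hsr : s < r
    · have m1 : circleMap 0 s θ ∈ ball (0 : ℂ) r := by
        rw [mem_ball, dist_eq_norm, circleMap_sub_center, norm_circleMap_zero, abs_of_pos hs0]
        exact hsr
      have m2 : ((s, θ) : ℝ × ℝ) ∈ Set.Ioo 0 r ×ˢ Set.Ioo (-π) π := ⟨⟨hs0, hsr⟩, hθ⟩
      rw [Set.indicator_of_mem m1, Set.indicator_of_mem m2, smul_eq_mul]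
    · have m1 : circleMap 0 s θ ∉ ball (0 : ℂ) r := by
        rw [mem_ball, dist_eq_norm, circleMap_sub_center, norm_circleMap_zero, abs_of_pos hs0]
        exact hsr
      have m2 : ((s, θ) : ℝ × ℝ) ∉ Set.Ioo 0 r ×ˢ Set.Ioo (-π) π := fun h => hsr h.1.2
      rw [Set.indicator_of_notMem m1, Set.indicator_of_notMem m2, smul_zero]
  have hm1 : MeasurableSet (Set.Ioi (0 : ℝ) ×ˢ Set.Ioo (-π) π) :=
    measurableSet_Ioi.prod measurableSet_Ioo
  have hm2 : MeasurableSet (Set.Ioo (0 : ℝ) r ×ˢ Set.Ioo (-π) π) :=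
    measurableSet_Ioo.prod measurableSet_Ioo
  rw [setLIntegral_congr_fun hm1 h2, setLIntegral_indicator hm2]
  have h3 : Set.Ioo (0 : ℝ) r ×ˢ Set.Ioo (-π) π ∩ Set.Ioi (0 : ℝ) ×ˢ Set.Ioo (-π) π =
      Set.Ioo (0 : ℝ) r ×ˢ Set.Ioo (-π) π := by
    apply Set.inter_eq_left.2
    exact Set.prod_mono (fun x hx => hx.1) (subset_refl _)
  rw [h3]
  have hcm : Continuous fun p : ℝ × ℝ => circleMap 0 p.1 p.2 := by
    unfold circleMap
    fun_prop
  have hmeas : Measurable fun p : ℝ × ℝ =>
      ENNReal.ofReal p.1 * ENNReal.ofReal (φ (circleMap 0 p.1 p.2)) := by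
    exact measurable_fst.ennreal_ofReal.mul (hφ.comp hcm.measurable).ennreal_ofReal
  rw [Measure.volume_eq_prod, ← Measure.prod_restrict, lintegral_prod _ hmeas.aemeasurable]
  have h4 : ∀ s ∈ Set.Ioo (0 : ℝ) r,
      ∫⁻ θ in Set.Ioo (-π) π, ENNReal.ofReal s * ENNReal.ofReal (φ (circleMap 0 s θ)) ≤
        ENNReal.ofReal (2 * π * A * s) := by
    intro s hs
    obtain ⟨hci, hav⟩ := hc s hs
    have hs0 : 0 < s := hs.1
    have hm : Measurable fun θ : ℝ => ENNReal.ofReal (φ (circleMap 0 s θ)) :=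
      (hφ.comp (continuous_circleMap 0 s).measurable).ennreal_ofReal
    rw [lintegral_const_mul _ hm]
    have h5 : ∫ θ in Set.Ioo (-π) π, φ (circleMap 0 s θ) = ∫ θ in (0 : ℝ)..2 * π,
        φ (circleMap 0 s θ) := by
      rw [← integral_Ioc_eq_integral_Ioo, ← intervalIntegral.integral_of_le (by linarith)]
      have hper : Function.Periodic (fun θ => φ (circleMap 0 s θ)) (2 * π) := fun θ => by
        show φ (circleMap 0 s (θ + 2 * π)) = φ (circleMap 0 s θ)
        rw [periodic_circleMap 0 s θ]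
      have h5 := hper.intervalIntegral_add_eq (-π) 0
      rw [show -π + 2 * π = π by ring, zero_add] at h5
      exact h5
    have h6 : IntegrableOn (fun θ => φ (circleMap 0 s θ)) (Set.Ioo (-π) π) := by
      have hper : Function.Periodic (fun θ => φ (circleMap 0 s θ)) (2 * π) := fun θ => by
        show φ (circleMap 0 s (θ + 2 * π)) = φ (circleMap 0 s θ)
        rw [periodic_circleMap 0 s θ]
      have h7 : IntervalIntegrable (fun θ => φ (circleMap 0 s θ)) volume 0 (0 + 2 * π) := by
        rw [zero_add]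
        exact hci
      have h8 := hper.intervalIntegrable (by positivity) h7 (-π) π
      rw [intervalIntegrable_iff_integrableOn_Ioo_of_le (by linarith)] at h8
      exact h8
    rw [← ofReal_integral_eq_lintegral_ofReal h6 (ae_of_all _ fun θ => h0 _), h5,
      ← ENNReal.ofReal_mul hs0.le]
    apply ENNReal.ofReal_le_ofReal
    rw [Real.circleAverage_def, smul_eq_mul] at hav
    have h9 : ∫ θ in (0 : ℝ)..2 * π, φ (circleMap 0 s θ) ≤ 2 * π * A := by
      have := mul_le_mul_of_nonneg_left hav (by positivity : 0 ≤ 2 * π)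
      rwa [← mul_assoc, mul_inv_cancel₀ (by positivity), one_mul] at this
    calc s * ∫ θ in (0 : ℝ)..2 * π, φ (circleMap 0 s θ) ≤ s * (2 * π * A) :=
          mul_le_mul_of_nonneg_left h9 hs0.le
      _ = 2 * π * A * s := by ring
  refine (setLIntegral_mono' measurableSet_Ioo h4).trans ?_
  have h10 : IntegrableOn (fun s : ℝ => 2 * π * A * s) (Set.Ioo 0 r) := by
    have hc' : Continuous fun s : ℝ => 2 * π * A * s := by fun_prop
    exact (hc'.continuousOn.integrableOn_compact isCompact_Icc).mono_set Set.Ioo_subset_Icc_self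
  rw [← ofReal_integral_eq_lintegral_ofReal h10]
  · apply ENNReal.ofReal_le_ofReal
    rw [← integral_Ioc_eq_integral_Ioo, ← intervalIntegral.integral_of_le hr.le,
      intervalIntegral.integral_const_mul, integral_id]
    apply le_of_eq
    ring
  · rw [Filter.EventuallyLE, ae_restrict_iff' measurableSet_Ioo]
    refine ae_of_all _ fun s hs => ?_
    have := hs.1
    change 0 ≤ 2 * π * A * s
    positivity

theorem p_neg : P_neg := by
  classical
  intro f U r M hU hr hcr hf h0 hM hfM
  have hpi : 0 < π := Real.pi_pos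
  have hlM : 0 ≤ Real.log M := Real.log_nonneg hM
  have hbU : ball (0 : ℂ) r ⊆ U := ball_subset_closedBall.trans hcr
  have han : AnalyticOnNhd ℂ f (closedBall 0 r) := fun z hz =>
    hf.analyticAt (hU.mem_nhds (hcr hz))
  obtain ⟨g, hg⟩ : ∃ g : ℂ → ℂ, g = (ball (0 : ℂ) r).piecewise f (fun _ => 1) := ⟨_, rfl⟩
  have hgm : Measurable g := by
    rw [hg]
    exact (hf.continuousOn.mono hbU).measurable_piecewise continuousOn_const measurableSet_ball
  have hgf : ∀ z ∈ ball (0 : ℂ) r, g z = f z := by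
    intro z hz
    rw [hg, Set.piecewise_eq_of_mem _ _ _ hz]
  obtain ⟨φ, hφ⟩ : ∃ φ : ℂ → ℝ, φ = fun z => Real.posLog ‖g z‖⁻¹ := ⟨_, rfl⟩
  have hφm : Measurable φ := by
    rw [hφ]
    exact Real.continuous_posLog.measurable.comp hgm.norm.inv
  have hφ0 : ∀ z, 0 ≤ φ z := by
    intro z
    rw [hφ]
    exact Real.posLog_nonneg
  have hφf : ∀ z ∈ ball (0 : ℂ) r, φ z = Real.posLog ‖f z‖⁻¹ := by
    intro z hz
    rw [hφ]
    simp only
    rw [hgf z hz]
  have hc : ∀ s ∈ Set.Ioo 0 r, CircleIntegrable φ 0 s ∧ Real.circleAverage φ 0 s ≤ Real.log M := by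
    intro s hs
    have hcl : closedBall (0 : ℂ) s ⊆ ball 0 r := closedBall_subset_ball hs.2
    obtain ⟨h1, h2⟩ := circ hs.1 (han.mono (hcl.trans ball_subset_closedBall)) h0 hM
      (fun z hz => hfM z (hcl hz))
    have hfun : (fun θ => φ (circleMap 0 s θ)) =
        fun θ => Real.posLog ‖f (circleMap 0 s θ)‖⁻¹ := by
      funext θ
      apply hφf
      apply hcl
      rw [mem_closedBall, dist_eq_norm, circleMap_sub_center, norm_circleMap_zero,
        abs_of_pos hs.1]
    constructor
    · have h3 : IntervalIntegrable (fun θ => Real.posLog ‖f (circleMap 0 s θ)‖⁻¹) volume 0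
          (2 * π) := h1
      rw [← hfun] at h3
      exact h3
    · rw [Real.circleAverage_def] at h2 ⊢
      rw [show (∫ θ in (0 : ℝ)..2 * π, φ (circleMap 0 s θ)) =
        ∫ θ in (0 : ℝ)..2 * π, Real.posLog ‖f (circleMap 0 s θ)‖⁻¹ from by
          rw [show (fun θ => φ (circleMap 0 s θ)) = _ from hfun]]
      exact h2
  have hl := polar hr hlM hφm hφ0 hc
  have hfin : ∫⁻ z in ball (0 : ℂ) r, ENNReal.ofReal (φ z) < ⊤ :=
    lt_of_le_of_lt hl ENNReal.ofReal_lt_top
  have hint : IntegrableOn φ (ball 0 r) := by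
    refine ⟨hφm.aestronglyMeasurable, ?_⟩
    rw [hasFiniteIntegral_iff_ofReal (ae_of_all _ hφ0)]
    exact hfin
  refine ⟨hint.congr_fun hφf measurableSet_ball, ?_, ?_⟩
  · rw [← setIntegral_congr_fun measurableSet_ball hφf,
      integral_eq_lintegral_of_nonneg_ae (ae_of_all _ hφ0) hφm.aestronglyMeasurable]
    have h1 := ENNReal.toReal_mono ENNReal.ofReal_ne_top hl
    rwa [ENNReal.toReal_ofReal (by positivity)] at h1
  · have h1 := (han.mono (ball_subset_closedBall (x := (0 : ℂ)) (ε := r))).preimage_zero_mem_codiscreteWithin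
      (x := 0) (by rw [h0]; exact one_ne_zero) (mem_ball_self hr)
      ((convex_ball (0 : ℂ) r).isConnected ⟨0, mem_ball_self hr⟩)
    have h2 := ae_restrict_le_codiscreteWithin (μ := (volume : Measure ℂ)) measurableSet_ball h1
    rw [mem_ae_iff, Measure.restrict_apply' measurableSet_ball] at h2
    refine measure_mono_null ?_ h2
    rintro z ⟨hz, hz0⟩
    refine ⟨?_, hz⟩
    intro hcon
    exact hcon hz0

end Pool.Agent.H722.LL
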